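import Pool.Agent.helper70.LE.SpecN

/-!
# Row le:OM1 (MP_baa4d7_al): the value at `(a, 1)`
-/

set_option autoImplicit false

namespace Pool.Agent.LE

open Pool.Agent.helper58.DC Pool.Agent.DI Pool.Agent.GR Pool.Agent.OB Pool.Agent.DR Pool.Agent.FI Pool.Agent.FI3 Pool.Agent.FI4

theorem OM1_cz_one {G : Type} [Group G] (L : Subgroup G) : Cz L 1 = L := by
  ext x
  rw [mem_Cz]
  simp

theorem OM1 (hREC : REC_stmt) (hSCT : SCT_stmt) (hFXC : FXC_stmt) (hNYT : NYT_stmt) : OM1_stmt := by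
  intro p M hS hp2 G _ _ D x θ χ hL
  have key : ∀ n : ℕ, ∀ Q ≤ D, RP M D θ Q → ∀ a ∈ TT M D θ, a ∈ nz Q → Nat.card (cz Q) ≤ n →
      om p (cz Q) (eBl M (cz Q) θ) a 1 = 1 := by
    intro n
    induction n with
    | zero =>
      intro Q _ _ a _ _ hcard
      have : 0 < Nat.card (cz Q) := Nat.card_pos
      omega
    | succ n ih =>
      intro Q hQ hRP a ha haQ hcard
      obtain ⟨h1, h2, h3⟩ := hNYT p M hS G D x θ χ hL Q hQ a ha haQ
      have hrec := hREC p M hS G D x θ χ hL Q hQ hRP a ha haQ 1 (TT M D θ).one_mem (nz Q).one_mem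
        (by
          have e1 : a * 1 * a⁻¹ * 1⁻¹ = 1 := by group
          rw [e1]
          exact (cz D).one_mem)
      have hsct : ta (cz Q) (eBl M (cz Q) θ) a 1 =
          ({ψ : G → ℂ | ψ ∈ Bl M (cz Q) θ ∧ cjF a ψ = ψ}.ncard : ℂ) :=
        hSCT G (cz Q) (Bl M (cz Q) θ) (fun ψ hψ => hψ.1) a h1.nor h1.inv
      have hfx := hFXC p M hS hp2 G D x θ χ hL Q hQ hRP a ha haQ
      have hset : {u : G | u ∈ D ∧ a * u = u * a ∧ 1 * u = u * 1} = {u : G | u ∈ D ∧ a * u = u * a} := by
        ext u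
        simp
      have hfin : {u : G | u ∈ D ∧ a * u = u * a}.Finite := Set.toFinite _
      rw [hset, hsct, hfx, finsum_mem_eq_finite_toFinset_sum _ hfin, Set.ncard_eq_toFinset_card _ hfin] at hrec
      classical
      set S : Finset G := hfin.toFinset with hSdef
      have hmem : ∀ u ∈ S, u ∈ D ∧ a * u = u * a := by
        intro u hu
        exact hfin.mem_toFinset.1 hu
      have hterm : ∀ u ∈ S, om p (Cz (cz Q) u) (eBl M (Cz (cz Q) u) θ) a 1 =
          if Cz (cz Q) u = cz Q then om p (cz Q) (eBl M (cz Q) θ) a 1 else 1 := by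
        intro u hu
        obtain ⟨huD, hau⟩ := hmem u hu
        by_cases hc : Cz (cz Q) u = cz Q
        · rw [if_pos hc, hc]
        · rw [if_neg hc, ← cz_sup_zpowers]
          have hQ' : Q ⊔ Subgroup.zpowers u ≤ D := by
            refine sup_le hQ ?_
            rw [Subgroup.zpowers_le]
            exact huD
          have hlt : Nat.card (cz (Q ⊔ Subgroup.zpowers u)) < Nat.card (cz Q) := by
            rw [cz_sup_zpowers]
            have hle : Cz (cz Q) u ≤ cz Q := fun y hy => (mem_Cz.1 hy).1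
            by_contra hge
            apply hc
            exact Subgroup.eq_of_le_of_card_ge hle (not_lt.1 hge)
          exact ih (Q ⊔ Subgroup.zpowers u) hQ' (h3 hRP _ hQ' le_sup_left) a ha (h2 u huD hau).2 (by omega)
      rw [Finset.sum_congr rfl hterm] at hrec
      have h1S : (1 : G) ∈ S := by
        rw [hSdef, hfin.mem_toFinset]
        exact ⟨D.one_mem, by simp⟩
      have hsum : ∑ u ∈ S, ((if Cz (cz Q) u = cz Q then om p (cz Q) (eBl M (cz Q) θ) a 1 else 1) - 1 : ℂ) = 0 := by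
        rw [Finset.sum_sub_distrib, ← hrec, Finset.sum_const, nsmul_eq_mul, mul_one, sub_self]
      have hsum2 : ∑ u ∈ S, ((if Cz (cz Q) u = cz Q then om p (cz Q) (eBl M (cz Q) θ) a 1 else 1) - 1 : ℂ) =
          ((S.filter fun u => Cz (cz Q) u = cz Q).card : ℂ) * (om p (cz Q) (eBl M (cz Q) θ) a 1 - 1) := by
        have e2 : ∀ u ∈ S, ((if Cz (cz Q) u = cz Q then om p (cz Q) (eBl M (cz Q) θ) a 1 else 1) - 1 : ℂ) =
            if Cz (cz Q) u = cz Q then om p (cz Q) (eBl M (cz Q) θ) a 1 - 1 else 0 := by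
          intro u _
          by_cases hc : Cz (cz Q) u = cz Q
          · rw [if_pos hc, if_pos hc]
          · rw [if_neg hc, if_neg hc, sub_self]
        rw [Finset.sum_congr rfl e2, ← Finset.sum_filter, Finset.sum_const, nsmul_eq_mul]
      rw [hsum2] at hsum
      have hk : ((S.filter fun u => Cz (cz Q) u = cz Q).card : ℂ) ≠ 0 := by
        have : 0 < (S.filter fun u => Cz (cz Q) u = cz Q).card :=
          Finset.card_pos.2 ⟨1, Finset.mem_filter.2 ⟨h1S, OM1_cz_one _⟩⟩
        exact_mod_cast this.ne'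
      exact sub_eq_zero.1 ((mul_eq_zero.1 hsum).resolve_left hk)
  intro Q hQ hRP a ha haQ
  exact key _ Q hQ hRP a ha haQ le_rfl

end Pool.Agent.LE
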