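import Pool.Agent.helper83.LE.SpecB

/-!
# Row le:FOU (MP_baa4d7_al): Fourier analysis on a finite abelian group
-/

set_option autoImplicit false

namespace Pool.Agent.LE

open Pool.Agent.helper58.DC Pool.Agent.DI Pool.Agent.GR Pool.Agent.OB Pool.Agent.DR Pool.Agent.FI Pool.Agent.FI3 Pool.Agent.FI4 Pool.Agent.FI4C

theorem FOU_one {D : Type} [CommGroup D] [Fintype D] (g : D → ℂ) (l : D →* ℂˣ) :
    fh g l * (starRingEnd ℂ) (fh g l) =
      (∑ u, ∑ v, g u * (starRingEnd ℂ) (g v) * lv l (u⁻¹ * v)) / ((Nat.card D : ℂ) * (Nat.card D : ℂ)) := by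
  unfold fh
  rw [map_div₀, map_sum, Complex.conj_natCast, div_mul_div_comm, Finset.sum_mul_sum]
  congr 1
  refine Finset.sum_congr rfl fun u _ => Finset.sum_congr rfl fun v _ => ?_
  rw [map_mul, Complex.conj_conj, star_lv, lv_mul]
  ring

theorem FOU : FOU_stmt := by
  classical
  intro D _ _ _ g
  have hn : (Nat.card D : ℂ) ≠ 0 := by
    exact_mod_cast (Nat.card_pos (α := D)).ne'
  have h1 : ∑ l : D →* ℂˣ, ‖fh g l‖ ^ 2 = (∑ u, ‖g u‖ ^ 2) / Nat.card D := by
    have key : ∑ l : D →* ℂˣ, fh g l * (starRingEnd ℂ) (fh g l) =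
        (∑ u, g u * (starRingEnd ℂ) (g u)) / (Nat.card D : ℂ) := by
      rw [Finset.sum_congr rfl fun l _ => FOU_one g l, ← Finset.sum_div, Finset.sum_comm]
      have h2 : ∀ u, ∑ l : D →* ℂˣ, ∑ v, g u * (starRingEnd ℂ) (g v) * lv l (u⁻¹ * v) =
          g u * (starRingEnd ℂ) (g u) * (Nat.card D : ℂ) := by
        intro u
        rw [Finset.sum_comm]
        have h3 : ∀ v, ∑ l : D →* ℂˣ, g u * (starRingEnd ℂ) (g v) * lv l (u⁻¹ * v) =
            if v = u then g u * (starRingEnd ℂ) (g u) * (Nat.card D : ℂ) else 0 := by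
          intro v
          rw [← Finset.mul_sum, sum_hlv]
          by_cases hv : v = u
          · subst hv
            rw [if_pos rfl, if_pos (inv_mul_cancel v)]
          · rw [if_neg hv, if_neg (fun h => hv (inv_mul_eq_one.1 h).symm), mul_zero]
        rw [Finset.sum_congr rfl fun v _ => h3 v, Finset.sum_ite_eq' Finset.univ u, if_pos (Finset.mem_univ u)]
      rw [Finset.sum_congr rfl fun u _ => h2 u, ← Finset.sum_mul]
      field_simp
    have e1 : ∀ z : ℂ, z * (starRingEnd ℂ) z = ((‖z‖ ^ 2 : ℝ) : ℂ) := fun z => by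
      rw [Complex.mul_conj, Complex.normSq_eq_norm_sq]
    simp only [e1] at key
    exact_mod_cast key
  refine ⟨h1, fun h0 u => ?_, fun w l => ?_⟩
  · have h2 : (∑ u, ‖g u‖ ^ 2) / (Nat.card D : ℝ) = 0 := by
      rw [← h1]
      exact Finset.sum_eq_zero fun l _ => by rw [h0 l, norm_zero]; norm_num
    have h3 : (Nat.card D : ℝ) ≠ 0 := by
      exact_mod_cast (Nat.card_pos (α := D)).ne'
    have h4 : ∑ u, ‖g u‖ ^ 2 = 0 := (div_eq_zero_iff.1 h2).resolve_right h3
    have h5 := (Finset.sum_eq_zero_iff_of_nonneg (fun u _ => sq_nonneg ‖g u‖)).1 h4 u (Finset.mem_univ u)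
    exact norm_eq_zero.1 (pow_eq_zero_iff (by norm_num) |>.1 h5)
  · unfold fh
    congr 1
    refine Finset.sum_congr rfl fun u _ => ?_
    rw [lv_hmul, map_mul]
    ring

end Pool.Agent.LE
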